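import Pool.Agent.Helper80.HG.St

/-! MODULE LA of project HG: limits of ratios of displacements define a homomorphism to the reals,
so commutators do not scale. -/

set_option autoImplicit false

namespace Pool.Agent.Helper97.HG

open Pool.Agent.Helper80.HG Filter Topology Asymptotics
open scoped commutatorElement

section

variable {H : Set (ℝ → ℝ)} {Γ : Type} [Group Γ] {θ : Γ → ℝ → ℝ}

/-- the displacement of a nontrivial germ is eventually nonzero -/
theorem LA_ne (hH : Bas H) (hS : SB H θ) (a : Γ) (ha : ¬ Tr θ a) :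
    ∀ᶠ z in atTop, dsp θ a z ≠ 0 := by
  rcases hH.sign (dsp θ a) (hS.dmem a) with h | h | h
  · exfalso
    apply ha
    filter_upwards [h] with z hz
    simp only [dsp] at hz
    linarith
  · filter_upwards [h] with z hz using hz.ne'
  · filter_upwards [h] with z hz using hz.ne

theorem LA_conj_ntr (hS : SB H θ) (t a : Γ) (ha : ¬ Tr θ a) : ¬ Tr θ (t * a * t⁻¹) := by
  intro h
  apply ha
  have := hS.tconj t⁻¹ (t * a * t⁻¹) h
  have e : t⁻¹ * (t * a * t⁻¹) * t⁻¹⁻¹ = a := by group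
  rwa [e] at this

/-- transport by `θ g` -/
theorem LA_trans (hS : SB H θ) (g : Γ) (F : ℝ → ℝ) (c : ℝ)
    (h : Tendsto (fun z => F (θ g z)) atTop (𝓝 c)) : Tendsto F atTop (𝓝 c) := by
  have h1 : Tendsto (fun w => F (θ g (θ g⁻¹ w))) atTop (𝓝 c) := h.comp (hS.top g⁻¹)
  refine h1.congr' ?_
  filter_upwards [hS.inv g] with w hw
  rw [hw]

/-- the ratio of the transported displacements -/
theorem LA_one (hH : Bas H) (hS : SB H θ) (g a : Γ) (ha : ¬ Tr θ a) :
    Tendsto (fun z => dsp θ (g * a * g⁻¹) (θ g z) / dsp θ a z) atTop (𝓝 1) := by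
  have h1 := (hS.conj g a).tendsto_div_nhds_zero
  have h2 : Tendsto (fun z => (dsp θ (g * a * g⁻¹) (θ g z) - dsp θ a z) / dsp θ a z + 1)
      atTop (𝓝 (0 + 1)) := h1.add_const 1
  rw [zero_add] at h2
  refine h2.congr' ?_
  filter_upwards [LA_ne hH hS a ha] with z hz
  field_simp
  ring

/-- (1): the limit only depends on the asymptotic class -/
theorem LA_same (hH : Bas H) (hS : SB H θ) (t a b : Γ) (ha : ¬ Tr θ a) (hb : ¬ Tr θ b) (κ l : ℝ)
    (hκ : κ ≠ 0) (hab : Tendsto (fun z => dsp θ b z / dsp θ a z) atTop (𝓝 κ))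
    (hl : Tendsto (fun z => dsp θ (t * a * t⁻¹) z / dsp θ a z) atTop (𝓝 l)) :
    Tendsto (fun z => dsp θ (t * b * t⁻¹) z / dsp θ b z) atTop (𝓝 l) := by
  have ha' := LA_ne hH hS _ (LA_conj_ntr hS t a ha)
  have ha0 := LA_ne hH hS a ha
  have hb0 := LA_ne hH hS b hb
  have h1 := LA_one hH hS t b hb
  have h2 := LA_one hH hS t a ha
  have h3 : Tendsto (fun z => dsp θ (t * b * t⁻¹) (θ t z) / dsp θ (t * a * t⁻¹) (θ t z))
      atTop (𝓝 κ) := by
    have h4 := (h1.mul hab).div h2 one_ne_zero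
    simp only [one_mul, div_one] at h4
    refine h4.congr' ?_
    filter_upwards [ha0, hb0, (hS.top t).eventually ha'] with z hz1 hz2 hz3
    simp only [Pi.div_apply]
    field_simp
  have h5 : Tendsto (fun z => dsp θ (t * b * t⁻¹) z / dsp θ (t * a * t⁻¹) z) atTop (𝓝 κ) :=
    LA_trans hS t (fun w => dsp θ (t * b * t⁻¹) w / dsp θ (t * a * t⁻¹) w) κ h3
  have h6 := (h5.mul hl).div hab hκ
  have e : κ * l / κ = l := by field_simp
  rw [e] at h6
  refine h6.congr' ?_
  filter_upwards [ha', ha0, hb0] with z hz1 hz2 hz3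
  simp only [Pi.div_apply]
  field_simp

/-- (2): multiplicativity -/
theorem LA_mul (hH : Bas H) (hS : SB H θ) (s t a : Γ) (ha : ¬ Tr θ a) (l l' : ℝ) (hl' : l' ≠ 0)
    (hs : Tendsto (fun z => dsp θ (s * a * s⁻¹) z / dsp θ a z) atTop (𝓝 l))
    (ht : Tendsto (fun z => dsp θ (t * a * t⁻¹) z / dsp θ a z) atTop (𝓝 l')) :
    Tendsto (fun z => dsp θ (s * t * a * (s * t)⁻¹) z / dsp θ a z) atTop (𝓝 (l * l')) := by
  have hb := LA_conj_ntr hS t a ha
  have h1 := LA_same hH hS s a (t * a * t⁻¹) ha hb l' l hl' ht hs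
  have h2 := h1.mul ht
  have e : s * (t * a * t⁻¹) * s⁻¹ = s * t * a * (s * t)⁻¹ := by group
  rw [e] at h2
  refine h2.congr' ?_
  filter_upwards [LA_ne hH hS _ hb, LA_ne hH hS a ha] with z hz1 hz2
  field_simp

end

/-- MODULE LA. -/
theorem hLA : StLA := by
  intro H hH Γ _ θ hS hL t ht a ha
  have hla : ∀ g : Γ, ∃ l : ℝ, 0 < l ∧
      Tendsto (fun z => dsp θ (g * a * g⁻¹) z / dsp θ a z) atTop (𝓝 l) := fun g => hL g a ha
  choose l hl0 hl using hla
  have hmul : ∀ s t : Γ, l (s * t) = l s * l t := fun s t =>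
    tendsto_nhds_unique (hl (s * t)) (LA_mul hH hS s t a ha (l s) (l t) (hl0 t).ne' (hl s) (hl t))
  let φ : Γ →* ℝˣ := MonoidHom.mk' (fun g => Units.mk0 (l g) (hl0 g).ne') (fun s t => by
    apply Units.ext
    simp [hmul s t])
  have h1 : φ t = 1 := Abelianization.commutator_subset_ker φ ht
  have h2 : l t = 1 := by
    have := congrArg (fun u : ℝˣ => (u : ℝ)) h1
    simpa [φ] using this
  have h3 := hl t
  rwa [h2] at h3

end Pool.Agent.Helper97.HG
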